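import Mathlib

/-!
# Median eigenvalues of graphs with bounded average degree: the bound `√(d - 1)` fails

The disjoint union of the Petersen graph (eigenvalues `3`, `1` five times, `-2` four times) and of the
`4 × 4` rook's graph (eigenvalues `6`, `2` six times, `-2` nine times) has 26 vertices, 63 edges, and
`-2` is the eigenvalue number 14: the lower median eigenvalue. Its average degree is `63 / 13 < 5`,
and `√(63 / 13 - 1) = √(50 / 13) < 2`.
-/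

set_option autoImplicit false

namespace Pool.Agent.Results.MP_17c227_co.PetersenRook

open Matrix

/-- The average degree `2 |E| / n`. -/
noncomputable def avgDeg {n : ℕ} (G : SimpleGraph (Fin n)) : ℝ := 2 * (G.edgeSet.ncard : ℝ) / n

open Classical in
/-- The adjacency matrix of a graph is a real symmetric matrix. -/
theorem herm {n : ℕ} (G : SimpleGraph (Fin n)) : (G.adjMatrix ℝ).IsHermitian := by
  rw [Matrix.IsHermitian, Matrix.conjTranspose_eq_transpose_of_trivial]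
  exact G.isSymm_adjMatrix

open Classical in
/-- The eigenvalue number `i` of the adjacency matrix, `1 ≤ i ≤ n`, in decreasing order and counted
with multiplicity (`eigenvalues₀` is Mathlib's decreasing list of the eigenvalues, indexed from
`0`). -/
noncomputable def lam {n : ℕ} (G : SimpleGraph (Fin n)) (i : ℕ) : ℝ :=
  if h : i - 1 < Fintype.card (Fin n) then (herm G).eigenvalues₀ ⟨i - 1, h⟩ else 0

/-- The assertion of Q1 for the number `d`: for all graphs with `n ≥ 1` vertices and average degree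
at most `d` the median eigenvalues, with numbers `⌊(n + 1) / 2⌋` and `⌈(n + 1) / 2⌉`, have absolute
value at most `√(d - 1)`. -/
def Bound (d : ℝ) : Prop :=
  ∀ (n : ℕ), 1 ≤ n → ∀ G : SimpleGraph (Fin n), avgDeg G ≤ d →
    |lam G ((n + 1) / 2)| ≤ √(d - 1) ∧ |lam G ((n + 2) / 2)| ≤ √(d - 1)

/-! ### Eigenvalues and the rank of `A + 2` -/

theorem card_le_rank {n : ℕ} (A : Matrix (Fin n) (Fin n) ℝ) (hA : A.IsHermitian) (t : ℝ) :
    Fintype.card {i : Fin n // hA.eigenvalues i ≠ -t} ≤ (A + t • (1 : Matrix (Fin n) (Fin n) ℝ)).rank := by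
  classical
  set B : Matrix (Fin n) (Fin n) ℝ := A + t • (1 : Matrix (Fin n) (Fin n) ℝ) with hB
  have hv : ∀ i, B *ᵥ ⇑(hA.eigenvectorBasis i) = (hA.eigenvalues i + t) • ⇑(hA.eigenvectorBasis i) := by
    intro i
    rw [hB, Matrix.add_mulVec, hA.mulVec_eigenvectorBasis, Matrix.smul_mulVec, Matrix.one_mulVec,
      add_smul]
  have hmem : ∀ i : {i : Fin n // hA.eigenvalues i ≠ -t},
      (⇑(hA.eigenvectorBasis i.1) : Fin n → ℝ) ∈ LinearMap.range B.mulVecLin := by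
    rintro ⟨i, hi⟩
    refine ⟨(hA.eigenvalues i + t)⁻¹ • ⇑(hA.eigenvectorBasis i), ?_⟩
    have hne : hA.eigenvalues i + t ≠ 0 := fun h => hi (by linarith)
    rw [map_smul, Matrix.mulVecLin_apply, hv, smul_smul, inv_mul_cancel₀ hne, one_smul]
  have hli : LinearIndependent ℝ (fun i : {i : Fin n // hA.eigenvalues i ≠ -t} =>
      (⟨_, hmem i⟩ : LinearMap.range B.mulVecLin)) := by
    apply LinearIndependent.of_comp (LinearMap.range B.mulVecLin).subtype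
    have h1 : LinearIndependent ℝ hA.eigenvectorBasis := hA.eigenvectorBasis.orthonormal.linearIndependent
    have h2 := h1.comp (fun i : {i : Fin n // hA.eigenvalues i ≠ -t} => i.1) Subtype.val_injective
    exact h2.map' (WithLp.linearEquiv 2 ℝ (Fin n → ℝ)).toLinearMap
      (LinearEquiv.ker (WithLp.linearEquiv 2 ℝ (Fin n → ℝ)))
  exact hli.fintype_card_le_finrank

theorem le_of_rank {n r : ℕ} (A : Matrix (Fin n) (Fin n) ℝ) (hA : A.IsHermitian) (t : ℝ)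
    (hr : (A + t • (1 : Matrix (Fin n) (Fin n) ℝ)).rank ≤ r) (h : r < Fintype.card (Fin n)) :
    hA.eigenvalues₀ ⟨r, h⟩ ≤ -t := by
  classical
  by_contra hcon
  push Not at hcon
  have h1 := (card_le_rank A hA t).trans hr
  let e := (Fintype.equivOfCardEq (Fintype.card_fin (Fintype.card (Fin n))) :
    Fin (Fintype.card (Fin n)) ≃ Fin n)
  have hval : ∀ j : Fin (Fintype.card (Fin n)), hA.eigenvalues (e j) = hA.eigenvalues₀ j := by
    intro j
    show hA.eigenvalues₀ (e.symm (e j)) = _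
    rw [Equiv.symm_apply_apply]
  have hinj : Fintype.card (Fin (r + 1)) ≤ Fintype.card {i : Fin n // hA.eigenvalues i ≠ -t} := by
    refine Fintype.card_le_of_injective (fun k : Fin (r + 1) =>
      (⟨e ⟨k.1, lt_of_lt_of_le k.2 h⟩, ?_⟩ : {i : Fin n // hA.eigenvalues i ≠ -t})) ?_
    · rw [hval]
      have hle : hA.eigenvalues₀ ⟨r, h⟩ ≤ hA.eigenvalues₀ ⟨k.1, lt_of_lt_of_le k.2 h⟩ :=
        hA.eigenvalues₀_antitone (by
          rw [Fin.mk_le_mk]
          exact Nat.lt_succ_iff.mp k.2)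
      intro h0
      linarith
    · intro a b hab
      have := e.injective (Subtype.mk.inj hab)
      exact Fin.ext (Fin.mk.inj this)
  rw [Fintype.card_fin] at hinj
  omega

/-! ### The graph -/

/-- Neighbourhoods of the vertices as sets of binary digits: `0, …, 9` is the Petersen graph and
`10, …, 25` the `4 × 4` rook's graph. -/
def mask : Fin 26 → ℕ := ![896, 608, 336, 176, 524, 266, 134, 73, 37, 19, 4487168, 8958976, 17902592, 35789824, 4686848, 9127936, 18010112, 35774464, 7881728, 11831296, 19730432, 35528704, 58999808, 55085056, 47255552, 31596544]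

/-- Adjacency. -/
def adjB (i j : Fin 26) : Bool := (mask i).testBit j.1

/-- The disjoint union of the Petersen graph and of the `4 × 4` rook's graph. -/
def PR : SimpleGraph (Fin 26) where
  Adj i j := adjB i j = true
  symm := ⟨by
    have h : ∀ i j : Fin 26, adjB i j = true → adjB j i = true := by decide +kernel
    exact h⟩
  loopless := ⟨by
    have h : ∀ i : Fin 26, ¬ adjB i i = true := by decide +kernel
    exact h⟩

/-- `2 (A + 2) = CC * DD`. -/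
def CC : Fin 26 → Fin 13 → ℤ := ![![2, 0, 0, 0, 0, 0, 0, 0, 0, 0, 0, 0, 0], ![0, 2, 0, 0, 0, 0, 0, 0, 0, 0, 0, 0, 0], ![0, 0, 2, 0, 0, 0, 0, 0, 0, 0, 0, 0, 0], ![0, 0, 0, 2, 0, 0, 0, 0, 0, 0, 0, 0, 0], ![0, 0, 0, 0, 2, 0, 0, 0, 0, 0, 0, 0, 0], ![0, 0, 0, 0, 0, 2, 0, 0, 0, 0, 0, 0, 0], ![0, 2, 2, 2, -2, -2, 0, 0, 0, 0, 0, 0, 0], ![1, 1, 1, 3, -2, -2, 0, 0, 0, 0, 0, 0, 0], ![1, -1, 1, -1, 0, 2, 0, 0, 0, 0, 0, 0, 0], ![1, 1, -1, -1, 2, 0, 0, 0, 0, 0, 0, 0, 0], ![0, 0, 0, 0, 0, 0, 2, 0, 0, 0, 0, 0, 0], ![0, 0, 0, 0, 0, 0, 0, 2, 0, 0, 0, 0, 0], ![0, 0, 0, 0, 0, 0, 0, 0, 2, 0, 0, 0, 0], ![0, 0, 0, 0, 0, 0, 0, 0, 0, 2, 0, 0, 0], ![0, 0, 0, 0, 0, 0, 0, 0, 0, 0, 2, 0, 0], ![0, 0, 0, 0, 0, 0, -2, 2, 0, 0, 2, 0, 0], ![0, 0, 0, 0, 0, 0, -2, 0, 2, 0, 2, 0, 0], ![0, 0, 0, 0, 0, 0, -2, 0, 0, 2, 2, 0, 0], ![0, 0, 0, 0, 0, 0, 0, 0, 0, 0, 0, 2, 0], ![0, 0, 0, 0, 0, 0, -2, 2, 0, 0, 0, 2, 0], ![0, 0, 0, 0, 0, 0,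 -2, 0, 2, 0, 0, 2, 0], ![0, 0, 0, 0, 0, 0, -2, 0, 0, 2, 0, 2, 0], ![0, 0, 0, 0, 0, 0, 0, 0, 0, 0, 0, 0, 2], ![0, 0, 0, 0, 0, 0, -2, 2, 0, 0, 0, 0, 2], ![0, 0, 0, 0, 0, 0, -2, 0, 2, 0, 0, 0, 2], ![0, 0, 0, 0, 0, 0, -2, 0, 0, 2, 0, 0, 2]]

/-- Thirteen rows of `A + 2`. -/
def DD : Fin 13 → Fin 26 → ℤ := ![![2, 0, 0, 0, 0, 0, 0, 1, 1, 1, 0, 0, 0, 0, 0, 0, 0, 0, 0, 0, 0, 0, 0, 0, 0, 0], ![0, 2, 0, 0, 0, 1, 1, 0, 0, 1, 0, 0, 0, 0, 0, 0, 0, 0, 0, 0, 0, 0, 0, 0, 0, 0], ![0, 0, 2, 0, 1, 0, 1, 0, 1, 0, 0, 0, 0, 0, 0, 0, 0, 0, 0, 0, 0, 0, 0, 0, 0, 0], ![0, 0, 0, 2, 1, 1, 0, 1, 0, 0, 0, 0, 0, 0, 0, 0, 0, 0, 0, 0, 0, 0, 0, 0, 0, 0], ![0, 0, 1, 1, 2, 0, 0, 0, 0, 1, 0, 0, 0, 0, 0, 0, 0, 0, 0, 0, 0, 0, 0, 0, 0, 0], ![0, 1, 0, 1, 0, 2, 0, 0, 1, 0, 0, 0, 0, 0, 0, 0, 0, 0, 0, 0, 0, 0, 0, 0, 0, 0], ![0, 0, 0, 0, 0, 0, 0, 0, 0, 0, 2, 1, 1, 1, 1, 0, 0, 0, 1, 0, 0, 0, 1, 0, 0, 0], ![0, 0, 0, 0, 0, 0, 0, 0, 0, 0, 1,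 2, 1, 1, 0, 1, 0, 0, 0, 1, 0, 0, 0, 1, 0, 0], ![0, 0, 0, 0, 0, 0, 0, 0, 0, 0, 1, 1, 2, 1, 0, 0, 1, 0, 0, 0, 1, 0, 0, 0, 1, 0], ![0, 0, 0, 0, 0, 0, 0, 0, 0, 0, 1, 1, 1, 2, 0, 0, 0, 1, 0, 0, 0, 1, 0, 0, 0, 1], ![0, 0, 0, 0, 0, 0, 0, 0, 0, 0, 1, 0, 0, 0, 2, 1, 1, 1, 1, 0, 0, 0, 1, 0, 0, 0], ![0, 0, 0, 0, 0, 0, 0, 0, 0, 0, 1, 0, 0, 0, 1, 0, 0, 0, 2, 1, 1, 1, 1, 0, 0, 0], ![0, 0, 0, 0, 0, 0, 0, 0, 0, 0, 1, 0, 0, 0, 1, 0, 0, 0, 1, 0, 0, 0, 2, 1, 1, 1]]

theorem fac : ∀ i j : Fin 26, 2 * ((if adjB i j = true then 1 else 0) + (if i = j then 2 else 0)) =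
    ∑ k : Fin 13, CC i k * DD k j := by
  decide +kernel

open Classical in
theorem rank_le : (PR.adjMatrix ℝ + (2 : ℝ) • (1 : Matrix (Fin 26) (Fin 26) ℝ)).rank ≤ 13 := by
  have h : PR.adjMatrix ℝ + (2 : ℝ) • (1 : Matrix (Fin 26) (Fin 26) ℝ) =
      (Matrix.of fun i k => (CC i k : ℝ) / 2) * (Matrix.of fun k j => (DD k j : ℝ)) := by
    ext i j
    have h1 := fac i j
    have h2 : (2 : ℝ) * ((if adjB i j = true then 1 else 0) + (if i = j then 2 else 0)) =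
        ∑ k : Fin 13, (CC i k : ℝ) * DD k j := by
      have := congrArg (fun z : ℤ => (z : ℝ)) h1
      push_cast at this
      exact this
    rw [Matrix.mul_apply]
    simp only [Matrix.of_apply]
    have h3 : ∑ k : Fin 13, (CC i k : ℝ) / 2 * DD k j = (∑ k : Fin 13, (CC i k : ℝ) * DD k j) / 2 := by
      rw [Finset.sum_div]
      exact Finset.sum_congr rfl fun k _ => by ring
    rw [h3, ← h2, Matrix.add_apply, Matrix.smul_apply, SimpleGraph.adjMatrix_apply, Matrix.one_apply]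
    have h4 : PR.Adj i j ↔ adjB i j = true := Iff.rfl
    have h5 : (if PR.Adj i j then (1 : ℝ) else 0) = if adjB i j = true then 1 else 0 := by
      by_cases ha : adjB i j = true
      · rw [if_pos (h4.mpr ha), if_pos ha]
      · rw [if_neg (fun h => ha (h4.mp h)), if_neg ha]
    rw [h5]
    split_ifs <;> norm_num
  rw [h]
  refine (Matrix.rank_mul_le_left _ _).trans ?_
  exact (Matrix.rank_le_width _)

theorem edges : PR.edgeSet.ncard = 63 := by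
  classical
  have h1 : ∑ v : Fin 26, PR.degree v = 2 * PR.edgeFinset.card := PR.sum_degrees_eq_twice_card_edges
  have h2 : ∑ v : Fin 26, PR.degree v = 126 := by
    have h3 : ∀ v : Fin 26, PR.degree v = (Finset.univ.filter fun w => adjB v w = true).card := by
      intro v
      rw [← SimpleGraph.card_neighborFinset_eq_degree]
      congr 1
      ext w
      rw [SimpleGraph.mem_neighborFinset, Finset.mem_filter]
      exact ⟨fun h => ⟨Finset.mem_univ _, h⟩, fun h => h.2⟩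
    simp only [h3]
    decide +kernel
  have h4 : PR.edgeSet.ncard = PR.edgeFinset.card := by
    rw [Set.ncard_eq_toFinset_card']
    rfl
  omega

theorem avg : avgDeg PR = 63 / 13 := by
  unfold avgDeg
  rw [edges]
  norm_num

theorem lam_le : lam PR 14 ≤ -2 := by
  have h : 14 - 1 < Fintype.card (Fin 26) := by simp
  unfold lam
  rw [dif_pos h]
  exact le_of_rank _ (herm PR) 2 rank_le h

/-- **The assertion of Q1 is false.** There is a graph with 26 vertices and average degree `63 / 13`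
whose lower median eigenvalue, the one with number 14, is at most `-2`; hence the bound `√(d - 1)` of
Q1 fails for every real number `d` with `63 / 13 ≤ d < 5`, in particular it does not hold for all
real `d ≥ 2`. -/
theorem result :
    (∃ G : SimpleGraph (Fin 26), avgDeg G = 63 / 13 ∧ lam G ((26 + 2) / 2) ≤ -2) ∧
    (∀ d : ℝ, 63 / 13 ≤ d → d < 5 → ¬ Bound d) ∧
    ¬ ∀ d : ℝ, 2 ≤ d → Bound d := by
  have key : ∀ d : ℝ, 63 / 13 ≤ d → d < 5 → ¬ Bound d := by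
    intro d h1 h2 hB
    have h3 := (hB 26 (by norm_num) PR (by rw [avg]; exact h1)).2
    have h4 : lam PR ((26 + 2) / 2) ≤ -2 := lam_le
    have h5 : (2 : ℝ) ≤ |lam PR ((26 + 2) / 2)| := by
      rw [le_abs]
      right
      linarith
    have h6 : √(d - 1) < 2 := by
      rw [Real.sqrt_lt' (by norm_num)]
      linarith
    linarith
  refine ⟨⟨PR, avg, lam_le⟩, key, fun h => ?_⟩
  exact key (63 / 13) le_rfl (by norm_num) (h _ (by norm_num))

end Pool.Agent.Results.MP_17c227_co.PetersenRook
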